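import Pool.Agent.TH322.CS.Pow

/-!
# Character sums over product sets and over powers with restricted exponents
-/

set_option autoImplicit false

namespace Pool.Agent.Results.MP_cb27ba_nt.ProductSets

open Finset
open scoped Pointwise Combinatorics.Additive

/-- The integers `∑_{i<k} d_i g^i` with all digits `d_i` in `D`; the digits are residues modulo
`g`, represented by `0, ..., g-1`. -/
def digitSet {g : ℕ} (D : Finset (ZMod g)) (k : ℕ) : Finset ℕ :=
  (Fintype.piFinset fun _ : Fin k => D).image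
    fun d : Fin k → ZMod g => ∑ i : Fin k, (d i).val * g ^ (i : ℕ)

/-- `|∑_{a,b ∈ A} w(b) χ(a-b)| < |A|^(2-τ)` for all weights `|w| ≤ 1` (for instance the indicator
function of a subset of `A`, or `w = 1`). -/
def Saving {p : ℕ} (χ : DirichletCharacter ℂ p) (τ : ℝ) (A : Finset (ZMod p)) : Prop :=
  ∀ w : ZMod p → ℂ, (∀ b, ‖w b‖ ≤ 1) →
    ‖∑ a ∈ A, ∑ b ∈ A, w b * χ (a - b)‖ < (A.card : ℝ) ^ (2 - τ)

set_option exponentiation.threshold 1000 in
/-- For every prime and every nonprincipal character: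
(1) power saving for every direct product `A = X · Y` with `|X| ≥ p^ε` and
`E_×(Y) ≤ p^(-1/2-η) |Y|^4` (for instance a union of cosets of a subgroup `X` of order `≥ p^ε`);
(2) power saving for the sets of powers `θ^a` whose exponents `a < ord θ` have base `g` digits in
`D`, of size `|D|^k > p^δ`, whenever `log |D| < 2 δ (4 log |D| - log E₊(D))`, `E₊(D)` the additive
energy of `D` modulo the base `g`;
(3) for instance for base `3`, digits `0` and `2`, and `2^k > p^0.354`. -/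
theorem result :
    (∀ ε η : ℝ, 0 < ε → 0 < η →
      ∃ τ : ℝ, 0 < τ ∧ ∃ P : ℕ, ∀ p : ℕ, p.Prime → P ≤ p →
        ∀ χ : DirichletCharacter ℂ p, χ ≠ 1 →
          ∀ X Y : Finset (ZMod p), X.Nonempty → Y.Nonempty → (0 : ZMod p) ∉ X →
            (0 : ZMod p) ∉ Y → (p : ℝ) ^ ε ≤ X.card → (X * Y).card = X.card * Y.card →
            (Finset.mulEnergy Y Y : ℝ) ≤ (p : ℝ) ^ (-(1 / 2) - η) * (Y.card : ℝ) ^ 4 →
            Saving χ τ (X * Y)) ∧
    (∀ g : ℕ, 2 ≤ g → ∀ D : Finset (ZMod g), 2 ≤ D.card → ∀ δ : ℝ, 0 < δ →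
      Real.log D.card < 2 * δ * (4 * Real.log D.card - Real.log (Finset.addEnergy D D)) →
      ∃ τ : ℝ, 0 < τ ∧ ∃ P : ℕ, ∀ p : ℕ, p.Prime → P ≤ p →
        ∀ χ : DirichletCharacter ℂ p, χ ≠ 1 → ∀ (θ : ZMod p) (k : ℕ),
          (∀ a ∈ digitSet D k, a < orderOf θ) → (p : ℝ) ^ δ < (D.card : ℝ) ^ k →
            Saving χ τ ((digitSet D k).image (fun a : ℕ => θ ^ a))) ∧
    (∃ τ : ℝ, 0 < τ ∧ ∃ P : ℕ, ∀ p : ℕ, p.Prime → P ≤ p →
      ∀ χ : DirichletCharacter ℂ p, χ ≠ 1 → ∀ (θ : ZMod p) (k : ℕ),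
        (∀ a ∈ digitSet ({0, 2} : Finset (ZMod 3)) k, a < orderOf θ) →
          (p : ℝ) ^ (0.354 : ℝ) < 2 ^ k →
            Saving χ τ ((digitSet ({0, 2} : Finset (ZMod 3)) k).image
              (fun a : ℕ => θ ^ a))) := by
  refine ⟨?_, ?_, ?_⟩
  · intro ε η hε hη
    obtain ⟨τ, hτ, P, h⟩ := Pool.Agent.TH322.CS.direct_prod ε η hε hη
    refine ⟨τ, hτ, P, fun p hp hP χ hχ X Y h1 h2 h3 h4 h5 h6 h7 w hw => ?_⟩
    exact h p ⟨hp⟩ hP χ hχ X Y h1 h2 h3 h4 h5 h6 h7 w hw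
  · intro g hg D hD2 δ hδ0 hδ
    obtain ⟨τ, hτ, P, h⟩ := Pool.Agent.TH322.CS.powers g hg D hD2 δ hδ0 hδ
    refine ⟨τ, hτ, P, fun p hp hP χ hχ θ k hk h1 w hw => ?_⟩
    exact h p ⟨hp⟩ hP χ hχ θ k hk h1 w hw
  · have hcard : ({0, 2} : Finset (ZMod 3)).card = 2 := by decide
    have hE : Finset.addEnergy ({0, 2} : Finset (ZMod 3)) {0, 2} = 6 := by decide
    have hlog : Real.log (({0, 2} : Finset (ZMod 3)).card : ℝ) <
        2 * (0.354 : ℝ) * (4 * Real.log (({0, 2} : Finset (ZMod 3)).card : ℝ) -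
          Real.log (Finset.addEnergy ({0, 2} : Finset (ZMod 3)) {0, 2} : ℝ)) := by
      rw [hcard, hE]
      push_cast
      have h0 : (6 ^ 177 : ℕ) < 2 ^ 458 := by decide
      have h1 : (6 : ℝ) ^ 177 < 2 ^ 458 := by exact_mod_cast h0
      have h2 := Real.log_lt_log (by positivity) h1
      rw [Real.log_pow, Real.log_pow] at h2
      push_cast at h2
      linarith
    obtain ⟨τ, hτ, P, h⟩ := Pool.Agent.TH322.CS.powers 3 (by norm_num)
      ({0, 2} : Finset (ZMod 3)) (by rw [hcard]) 0.354 (by norm_num) hlog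
    refine ⟨τ, hτ, P, fun p hp hP χ hχ θ k hk h1 w hw => ?_⟩
    refine h p ⟨hp⟩ hP χ hχ θ k hk ?_ w hw
    rw [hcard]
    exact_mod_cast h1

end Pool.Agent.Results.MP_cb27ba_nt.ProductSets
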