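import Mathlib
import Pool.Agent.TH920.QI.Quarter

set_option autoImplicit false

namespace Pool.Agent.Results.MP_cb27ba_nt.QuadraticImages

open scoped Pointwise

/-- Power saving above the exponent `1/4`, for EVERY prime and EVERY nonprincipal character, for
fractional quadratic images of sets of bounded doubling, of all sets nearly invariant under such a
set, and of all their dense subsets.
For all `δ > 1/4` and `K` there are `τ > 0` and `P` such that for every prime `p ≥ P`, every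
nonprincipal `χ` modulo `p`, every set `B` with `|B| > p^δ` and `|B+B| ≤ K |B|`, and every set `A`
with `|A+B| ≤ p^τ |A|`:
* for ALL functions `h` bounded by `1` the bilinear form `∑ f(a) g(b) h(a+b) χ(a-b)` over `A × A`
  is at most `|A|^(1-τ) ‖f‖₂ ‖g‖₂`;
* consequently, for every subset `A'` of `A` with `|A| ≤ p^τ |A'|` and all residues
  `u, v, α, β, γ, ε` with `(u,v) ≠ (0,0)`, `α ε ≠ β γ`, the set `C` of all
  `(α q(a) + β) / (γ q(a) + ε)`, `q(a) = u a² + v a`, `a ∈ A'` (no pole in `A'`), has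
  `|∑_{x,y ∈ C} χ(x-y)| < |C|^(2-τ)`. -/
theorem result :
    ∀ δ K : ℝ, 1 / 4 < δ →
      ∃ τ : ℝ, 0 < τ ∧ ∃ P : ℕ, ∀ p : ℕ, p.Prime → P ≤ p →
        ∀ χ : DirichletCharacter ℂ p, χ ≠ 1 → ∀ A B : Finset (ZMod p), A.Nonempty →
          (p : ℝ) ^ δ < B.card → ((B + B).card : ℝ) ≤ K * B.card →
          ((A + B).card : ℝ) ≤ (p : ℝ) ^ τ * A.card →
          (∀ f g h : ZMod p → ℂ, (∀ s, ‖h s‖ ≤ 1) →
            ‖∑ a ∈ A, ∑ b ∈ A, f a * g b * h (a + b) * χ (a - b)‖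
              ≤ (A.card : ℝ) ^ (1 - τ) *
                (Real.sqrt (∑ a ∈ A, ‖f a‖ ^ 2) * Real.sqrt (∑ b ∈ A, ‖g b‖ ^ 2))) ∧
          (∀ A' : Finset (ZMod p), A' ⊆ A → (A.card : ℝ) ≤ (p : ℝ) ^ τ * A'.card →
            ∀ u v α β γ ε : ZMod p, (u ≠ 0 ∨ v ≠ 0) → α * ε - β * γ ≠ 0 →
              (∀ a ∈ A', γ * (u * a ^ 2 + v * a) + ε ≠ 0) → ∀ C : Finset (ZMod p),
              C = (A'.image fun a =>
                (α * (u * a ^ 2 + v * a) + β) * (γ * (u * a ^ 2 + v * a) + ε)⁻¹) →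
              ‖∑ x ∈ C, ∑ y ∈ C, χ (x - y)‖ < (C.card : ℝ) ^ (2 - τ)) :=
  fun δ K hδ => Pool.Agent.TH920.QI.quarter_images δ K hδ

end Pool.Agent.Results.MP_cb27ba_nt.QuadraticImages
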