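import Mathlib
import Pool.Agent.TH920.QI.Unif

set_option autoImplicit false

namespace Pool.Agent.Results.MP_cb27ba_nt.QuadraticImagesUniform

open scoped Pointwise

/-- Exponents up to `1/4`: for every prime modulus, power saving for all fractional quadratic
images of sets of bounded doubling, of all sets nearly invariant under such a set, and of all their
dense subsets, simultaneously, for all characters but few.  For all `0 < δ ≤ 1/4`, `ε > 0` and `K`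
there is `τ > 0` such that for every large prime `p` all but at most `p^(1-2δ+ε)` of the characters
`χ` modulo `p` satisfy, for all `A`, `B` with `|B| > p^δ`, `|B+B| ≤ K |B|`, `|A+B| ≤ p^τ |A|`:
* for all `f`, `g` and all `h` bounded by `1` the sum of `f(a) g(b) h(a+b) χ(a-b)` over `A × A` is
  at most `|A|^(1-τ) ‖f‖₂ ‖g‖₂`;
* for every `A' ⊆ A` with `|A| ≤ p^τ |A'|` and every set `C` of all
  `(α q(a) + β) / (γ q(a) + η)`, `q(a) = u a² + v a`, `a ∈ A'` (no pole in `A'`,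
  `(u,v) ≠ (0,0)`, `α η ≠ β γ`), `|∑_{x,y ∈ C} χ(x-y)| < |C|^(2-τ)`. -/
theorem result :
    ∀ δ ε K : ℝ, 0 < δ → δ ≤ 1 / 4 → 0 < ε →
      ∃ τ : ℝ, 0 < τ ∧ ∃ P : ℕ, ∀ p : ℕ, p.Prime → P ≤ p →
        ({χ : DirichletCharacter ℂ p | ∃ A B : Finset (ZMod p), A.Nonempty ∧
          (p : ℝ) ^ δ < (B.card : ℝ) ∧ ((B + B).card : ℝ) ≤ K * B.card ∧
          ((A + B).card : ℝ) ≤ (p : ℝ) ^ τ * A.card ∧
          ((∃ f g h : ZMod p → ℂ, (∀ s, ‖h s‖ ≤ 1) ∧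
            (A.card : ℝ) ^ (1 - τ) *
              (Real.sqrt (∑ a ∈ A, ‖f a‖ ^ 2) * Real.sqrt (∑ b ∈ A, ‖g b‖ ^ 2)) <
              ‖∑ a ∈ A, ∑ b ∈ A, f a * g b * h (a + b) * χ (a - b)‖) ∨
          (∃ A' : Finset (ZMod p), A' ⊆ A ∧ (A.card : ℝ) ≤ (p : ℝ) ^ τ * A'.card ∧
            ∃ u v α β γ η : ZMod p, (u ≠ 0 ∨ v ≠ 0) ∧ α * η - β * γ ≠ 0 ∧
              (∀ a ∈ A', γ * (u * a ^ 2 + v * a) + η ≠ 0) ∧ ∃ C : Finset (ZMod p),
              C = (A'.image fun a =>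
                (α * (u * a ^ 2 + v * a) + β) * (γ * (u * a ^ 2 + v * a) + η)⁻¹) ∧
              (C.card : ℝ) ^ (2 - τ) ≤ ‖∑ x ∈ C, ∑ y ∈ C, χ (x - y)‖))}.ncard : ℝ)
          ≤ (p : ℝ) ^ (1 - 2 * δ + ε) :=
  fun δ ε K hδ hδ4 hε => Pool.Agent.TH920.QI.uniform_images δ ε K hδ hδ4 hε

end Pool.Agent.Results.MP_cb27ba_nt.QuadraticImagesUniform
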